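import Pool.Agent.H7Z.WR.Meas

set_option autoImplicit false

namespace Pool.Agent.Results.MP_18a3c4_co.AWRImpliesEHP

open Pool.Agent.H7Z.WR

/-- Every hereditary class of graphs in WR has the Erdős–Hajnal property. -/
theorem result (F : GraphClass) (hF : Hereditary F) (hW : InWR F) : EHP F :=
  main F hF hW

end Pool.Agent.Results.MP_18a3c4_co.AWRImpliesEHP
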